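import Pool.Agent.Helper88.GU.St

/-!
# Project GU, second hand-in (MP_b1e6de_al), module WB: heights of initial ideals
-/

set_option autoImplicit false

namespace Pool.Agent.Helper70.GU2

open Polynomial
open Pool.Agent.Helper88.GU

universe u

variable {A : Type u} [CommRing A]

/-- `a ↦ ∑ a_i X^i`, `X ↦ X` -/
noncomputable def gam (G : Gr A) : A[X] →+* A[X] := eval₂RingHom G.Γ X

theorem gam_C (G : Gr A) (a : A) : gam G (C a) = G.Γ a := by simp [gam]

theorem gam_X (G : Gr A) : gam G X = X := by simp [gam]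

theorem gam_coeff (G : Gr A) (p : A[X]) (j : ℕ) :
    (gam G p).coeff j = ∑ k ∈ Finset.range (j + 1), (G.Γ (p.coeff k)).coeff (j - k) := by
  have h1 : gam G p = ∑ k ∈ p.support, G.Γ (p.coeff k) * X ^ k := by
    simp [gam, eval₂_eq_sum, Polynomial.sum]
  rw [h1, finsetSum_coeff]
  have h2 : ∀ k, (G.Γ (p.coeff k) * X ^ k).coeff j =
      if k ≤ j then (G.Γ (p.coeff k)).coeff (j - k) else 0 := by
    intro k
    rw [coeff_mul_X_pow']
  simp only [h2]
  rw [← Finset.sum_filter]
  apply Finset.sum_subset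
  · intro k hk
    rw [Finset.mem_filter] at hk
    rw [Finset.mem_range]
    omega
  · intro k hk hk'
    rw [Finset.mem_range] at hk
    rw [Finset.mem_filter] at hk'
    have : k ∉ p.support := fun h => hk' ⟨h, by omega⟩
    rw [notMem_support_iff.1 this, map_zero, coeff_zero]

/-- the homogeneous components of an element of the saturated homogenisation -/
theorem coeff_zero_mem (G : Gr A) (J P : Ideal A) (hT : Tops G J P) (p : A[X])
    (hp : gam G p ∈ J.map (C : A →+* A[X])) : p.coeff 0 ∈ P := by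
  have h1 : ∀ l, (G.Γ (p.coeff 0)).coeff l ∈ P := by
    intro l
    have h2 : (gam G p).coeff l ∈ J := (Ideal.mem_map_C_iff.1 hp) l
    rw [gam_coeff] at h2
    set q := ∑ k ∈ Finset.range (l + 1), (G.Γ (p.coeff k)).coeff (l - k) with hq
    have h3 : G.Γ q = ∑ k ∈ Finset.range (l + 1),
        C ((G.Γ (p.coeff k)).coeff (l - k)) * X ^ (l - k) := by
      rw [hq, map_sum]
      exact Finset.sum_congr rfl fun k _ => G.hom _ _
    have h4 : (G.Γ q).natDegree ≤ l := by
      rw [h3]
      apply natDegree_sum_le_of_forall_le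
      intro k _
      exact (natDegree_C_mul_X_pow_le _ _).trans (Nat.sub_le _ _)
    have h5 : (G.Γ q).coeff l = (G.Γ (p.coeff 0)).coeff l := by
      rw [h3, finsetSum_coeff, Finset.sum_eq_single 0]
      · simp
      · intro k hk hk0
        rw [Finset.mem_range] at hk
        rw [coeff_C_mul_X_pow, if_neg (by omega)]
      · intro h
        exact absurd (Finset.mem_range.2 (Nat.succ_pos l)) h
    rw [← h5]
    exact hT q h2 l h4
  have h2 := G.sum (p.coeff 0)
  rw [eval_eq_sum_range] at h2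
  rw [← h2]
  apply Ideal.sum_mem
  intro i _
  rw [one_pow, mul_one]
  exact h1 i

/-- the saturated homogenisation -/
noncomputable def hgn (G : Gr A) (J : Ideal A) : Ideal A[X] :=
  (J.map (C : A →+* A[X])).comap (gam G)

/-- the homogenisation of `f` is in it -/
theorem homog_mem (G : Gr A) (J : Ideal A) (f : A) (hf : f ∈ J) :
    ∑ i ∈ Finset.range ((G.Γ f).natDegree + 1),
      C ((G.Γ f).coeff i) * X ^ ((G.Γ f).natDegree - i) ∈ hgn G J := by
  change gam G _ ∈ J.map (C : A →+* A[X])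
  set N := (G.Γ f).natDegree
  have h1 : gam G (∑ i ∈ Finset.range (N + 1), C ((G.Γ f).coeff i) * X ^ (N - i)) =
      C f * X ^ N := by
    rw [map_sum]
    have h2 : ∀ i ∈ Finset.range (N + 1), gam G (C ((G.Γ f).coeff i) * X ^ (N - i)) =
        C ((G.Γ f).coeff i) * X ^ N := by
      intro i hi
      rw [Finset.mem_range] at hi
      rw [map_mul, map_pow, gam_C, gam_X, G.hom, mul_assoc, ← pow_add]
      congr 2
      omega
    rw [Finset.sum_congr rfl h2, ← Finset.sum_mul, ← map_sum]
    congr 2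
    have h3 := G.sum f
    rw [eval_eq_sum_range] at h3
    simpa using h3
  rw [h1]
  exact Ideal.mul_mem_right _ _ (Ideal.mem_map_of_mem _ hf)

/-- heights of the primes containing the homogenisation and not `X` -/
theorem height_hgn [IsNoetherianRing A] (G : Gr A) (J : Ideal A) (t : ℕ)
    (hJ : ∀ P : Ideal A, P.IsPrime → J ≤ P → (t : ℕ∞) ≤ P.height)
    (Q : Ideal A[X]) (hQ : Q.IsPrime) (hQJ : hgn G J ≤ Q) (hX : (X : A[X]) ∉ Q) :
    (t : ℕ∞) ≤ Q.height := by
  let B := Localization.Away (X : A[X])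
  let ι : A[X] →+* B := algebraMap A[X] B
  let xi : B := IsLocalization.Away.invSelf (X : A[X])
  have hxi : ι X * xi = 1 := IsLocalization.Away.mul_invSelf (X : A[X])
  have hu : IsUnit (ι X) := IsUnit.of_mul_eq_one _ hxi
  -- the automorphism and its inverse
  have hu1 : IsUnit ((ι.comp (gam G)) X) := by
    rw [RingHom.comp_apply, gam_X]
    exact hu
  let σ : B →+* B := IsLocalization.Away.lift (X : A[X]) hu1
  let γ : A →+* B := (eval₂RingHom (ι.comp C) xi).comp G.Γ
  have hu2 : IsUnit ((eval₂RingHom γ (ι X)) (X : A[X])) := by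
    rw [coe_eval₂RingHom, eval₂_X]
    exact hu
  let τ : B →+* B := IsLocalization.Away.lift (X : A[X]) hu2
  have hσ : ∀ p, σ (ι p) = ι (gam G p) := fun p => IsLocalization.Away.lift_eq _ hu1 p
  have hτ : ∀ p, τ (ι p) = eval₂RingHom γ (ι X) p := fun p => IsLocalization.Away.lift_eq _ hu2 p
  have hτC : ∀ a, τ (ι (C a)) = γ a := by
    intro a
    rw [hτ, coe_eval₂RingHom, eval₂_C]
  have hτX : τ (ι X) = ι X := by
    rw [hτ, coe_eval₂RingHom, eval₂_X]
  have hσX : σ (ι X) = ι X := by rw [hσ, gam_X]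
  have hinv : ∀ f : B →+* B, f (ι X) = ι X → f xi = xi := by
    intro f hf
    have h1 : f (ι X) * f xi = 1 := by rw [← map_mul, hxi, map_one]
    rw [hf] at h1
    calc f xi = (xi * ι X) * f xi := by rw [mul_comm xi, hxi, one_mul]
      _ = xi * (ι X * f xi) := by ring
      _ = xi := by rw [h1, mul_one]
  have hγ : ∀ a, γ a = ∑ i ∈ Finset.range ((G.Γ a).natDegree + 1),
      ι (C ((G.Γ a).coeff i)) * xi ^ i := by
    intro a
    change eval₂ (ι.comp C) xi (G.Γ a) = _
    rw [eval₂_eq_sum_range]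
    rfl
  have hsumA : ∀ a, ∑ i ∈ Finset.range ((G.Γ a).natDegree + 1), ι (C ((G.Γ a).coeff i)) =
      ι (C a) := by
    intro a
    rw [← map_sum, ← map_sum]
    congr 2
    have h3 := G.sum a
    rw [eval_eq_sum_range] at h3
    simpa using h3
  have hpow : ∀ i : ℕ, ι X ^ i * xi ^ i = 1 := by
    intro i
    rw [← mul_pow, hxi, one_pow]
  have hστ : σ.comp τ = RingHom.id B := by
    apply IsLocalization.ringHom_ext (Submonoid.powers (X : A[X]))
    apply Polynomial.ringHom_ext'
    · ext a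
      change σ (τ (ι (C a))) = ι (C a)
      rw [hτC, hγ, map_sum, ← hsumA a]
      refine Finset.sum_congr rfl fun i _ => ?_
      rw [map_mul, map_pow, hinv σ hσX, hσ, gam_C, G.hom, map_mul, map_pow, mul_assoc, hpow,
        mul_one]
    · change σ (τ (ι X)) = ι X
      rw [hτX, hσX]
  have hτσ : τ.comp σ = RingHom.id B := by
    apply IsLocalization.ringHom_ext (Submonoid.powers (X : A[X]))
    apply Polynomial.ringHom_ext'
    · ext a
      change τ (σ (ι (C a))) = ι (C a)
      rw [hσ, gam_C, hτ, coe_eval₂RingHom, eval₂_eq_sum_range, ← hsumA a]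
      refine Finset.sum_congr rfl fun i _ => ?_
      have h1 : γ ((G.Γ a).coeff i) = ι (C ((G.Γ a).coeff i)) * xi ^ i := by
        change eval₂ (ι.comp C) xi (G.Γ ((G.Γ a).coeff i)) = _
        rw [G.hom, eval₂_mul, eval₂_C, eval₂_X_pow]
        rfl
      rw [h1, mul_assoc, mul_comm (xi ^ i), hpow, mul_one]
    · change τ (σ (ι X)) = ι X
      rw [hσX, hτX]
  let e : B ≃+* B := RingEquiv.ofRingHom τ σ hτσ hστ
  -- transport of `Q`
  have hdis : Disjoint ((Submonoid.powers (X : A[X]) : Submonoid A[X]) : Set A[X]) (Q : Set A[X]) := by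
    rw [Set.disjoint_left]
    rintro _ ⟨n, rfl⟩ hn
    exact hX (hQ.mem_of_pow_mem n hn)
  have hQBp : (Q.map ι).IsPrime :=
    IsLocalization.isPrime_of_isPrime_disjoint (Submonoid.powers (X : A[X])) B Q hQ hdis
  have hQBh : (Q.map ι).height = Q.height :=
    IsLocalization.height_map_of_disjoint (Submonoid.powers (X : A[X])) Q hdis
  let R : Ideal B := (Q.map ι).comap e
  haveI hRp : R.IsPrime := Ideal.IsPrime.comap e
  have hRh : R.height = Q.height := by
    rw [← hQBh]
    exact RingEquiv.height_comap e _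
  let 𝔓 : Ideal A[X] := R.comap ι
  haveI h𝔓p : 𝔓.IsPrime := Ideal.IsPrime.comap ι
  have h𝔓h : 𝔓.height = Q.height := by
    rw [← hRh]
    exact IsLocalization.height_under (Submonoid.powers (X : A[X])) R
  let 𝔮 : Ideal A := 𝔓.comap (C : A →+* A[X])
  haveI h𝔮p : 𝔮.IsPrime := Ideal.IsPrime.comap C
  have hJ𝔮 : J ≤ 𝔮 := by
    intro f hf
    change τ (ι (C f)) ∈ Q.map ι
    rw [hτC]
    have h1 := Ideal.mem_map_of_mem ι (hQJ (homog_mem G J f hf))
    have h2 : ι (∑ i ∈ Finset.range ((G.Γ f).natDegree + 1),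
        C ((G.Γ f).coeff i) * X ^ ((G.Γ f).natDegree - i)) =
        ι X ^ (G.Γ f).natDegree * γ f := by
      rw [hγ, map_sum, Finset.mul_sum]
      refine Finset.sum_congr rfl fun i hi => ?_
      rw [Finset.mem_range] at hi
      rw [map_mul, map_pow]
      have h3 : ι X ^ (G.Γ f).natDegree = ι X ^ ((G.Γ f).natDegree - i) * ι X ^ i := by
        rw [← pow_add]
        congr 1
        omega
      rw [h3]
      calc ι (C ((G.Γ f).coeff i)) * ι X ^ ((G.Γ f).natDegree - i)
          = ι (C ((G.Γ f).coeff i)) * ι X ^ ((G.Γ f).natDegree - i) * (ι X ^ i * xi ^ i) := by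
            rw [hpow, mul_one]
        _ = _ := by ring
    rw [h2] at h1
    rcases hQBp.mem_or_mem h1 with h3 | h3
    · exact absurd (Ideal.eq_top_of_isUnit_mem _ h3 (hu.pow _)) hQBp.ne_top
    · exact h3
  haveI : 𝔓.LiesOver 𝔮 := ⟨rfl⟩
  have h1 := Ideal.height_eq_height_add_of_liesOver_of_hasGoingDown 𝔮 𝔓
  calc (t : ℕ∞) ≤ 𝔮.height := hJ 𝔮 h𝔮p hJ𝔮
    _ ≤ 𝔓.height := by rw [h1]; exact le_self_add
    _ = Q.height := h𝔓h

theorem hWB (hD3 : Pool.Agent.Helper91.GU.StD3.{u}) : StWB.{u} := by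
  intro A _ _ G J t hJ P hP hT
  let P' : Ideal A[X] := P.comap (constantCoeff : A[X] →+* A)
  haveI hP' : P'.IsPrime := Ideal.IsPrime.comap _
  have hXP' : (X : A[X]) ∈ P' := by
    change constantCoeff (X : A[X]) ∈ P
    simp
  have hle : hgn G J ≤ P' := by
    intro p hp
    change constantCoeff p ∈ P
    rw [constantCoeff_apply]
    exact coeff_zero_mem G J P hT p hp
  obtain ⟨Q, hQ, hQP⟩ := Ideal.exists_minimalPrimes_le hle
  haveI hQp : Q.IsPrime := hQ.isPrime
  have hX : (X : A[X]) ∉ Q := by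
    intro hXQ
    obtain ⟨y, hy, hxy⟩ := Ideal.exists_mul_mem_of_mem_minimalPrimes hQ hXQ
    apply hy
    change gam G y ∈ J.map (C : A →+* A[X])
    have h1 : gam G (X * y) ∈ J.map (C : A →+* A[X]) := hxy
    rw [map_mul, gam_X] at h1
    rw [Ideal.mem_map_C_iff] at h1 ⊢
    intro n
    have := h1 (n + 1)
    rwa [coeff_X_mul] at this
  have h1 : (t : ℕ∞) ≤ Q.height := height_hgn G J t hJ Q hQp hQ.le hX
  have h2 : Q < P' := lt_of_le_of_ne hQP (fun h => hX (h ▸ hXP'))
  have h3 : Q.height + 1 ≤ P'.height := Ideal.height_add_one_le_of_lt_of_isPrime h2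
  have h4 := hD3 A P'
  have h5 : P'.comap C = P := by
    ext a
    change constantCoeff (C a) ∈ P ↔ _
    simp
  rw [h5] at h4
  have h6 : (t : ℕ∞) + 1 ≤ P.height + 1 := (add_le_add_left h1 1).trans (h3.trans h4)
  exact (ENat.add_le_add_iff_right ENat.one_ne_top).1 h6

end Pool.Agent.Helper70.GU2
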